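import Mathlib
import Pool.Agent.R706.HPolar

/-!
# Commuting H-polar decompositions of an H-indecomposable matrix

`adj H M = H⁻¹ Mᴴ H` is the `H`-adjoint, the inner product is `[x, y] = star x ⬝ᵥ (H *ᵥ y)`.
-/

set_option autoImplicit false

namespace Pool.Agent.Results.MP_d7084b_al.CommutingFactorsTwo

open Pool.Agent.R706.HPolar

/-- `CPD(X, H)`: the number of selfadjoint factors `A` of `H`-polar decompositions `X = UA` with
commuting factors -/
noncomputable def CPD {n : ℕ} (X H : Matrix (Fin n) (Fin n) ℂ) : ℕ∞ :=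
  {A : Matrix (Fin n) (Fin n) ℂ | IsFactor H X A}.encard

/-- If `X ≠ 0` is `H`-indecomposable and has an `H`-polar decomposition with commuting factors, then
`CPD(X, H) = 2`. -/
theorem result (n : ℕ) (H : Matrix (Fin n) (Fin n) ℂ) (hH : H.IsHermitian) (hu : IsUnit H)
    (X : Matrix (Fin n) (Fin n) ℂ) (hX0 : X ≠ 0) (hX : ¬ Decomposable H X)
    (h : ∃ A, IsFactor H X A) : CPD X H = 2 := by
  obtain ⟨A, hA⟩ := h
  have hneg : IsFactor H X (-A) := by
    obtain ⟨h1, U, h2, h3, h4⟩ := hA
    refine ⟨?_, -U, ?_, ?_, ?_⟩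
    · rw [adj, Matrix.conjTranspose_neg, Matrix.mul_neg, Matrix.neg_mul, ← adj, h1]
    · have h5 : adj H (-U) = -adj H U := by
        rw [adj, Matrix.conjTranspose_neg, Matrix.mul_neg, Matrix.neg_mul, ← adj]
      rw [h5, neg_mul_neg, h2]
    · rw [neg_mul_neg, h3]
    · rw [neg_mul_neg, neg_mul_neg, h4]
  have hA0 : A ≠ 0 := by
    rintro rfl
    obtain ⟨_, U, _, h3, _⟩ := hA
    exact hX0 (by rw [h3, Matrix.mul_zero])
  have hne : A ≠ -A := by
    intro h
    apply hA0
    have h2 : (2 : ℂ) • A = 0 := by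
      rw [two_smul]
      nth_rw 1 [h]
      exact neg_add_cancel A
    exact (smul_eq_zero.1 h2).resolve_left two_ne_zero
  have hset : {A : Matrix (Fin n) (Fin n) ℂ | IsFactor H X A} = {A, -A} := by
    ext B
    constructor
    · intro hB
      exact main hH hu hX0 hX hA hB
    · rintro (rfl | rfl)
      · exact hA
      · exact hneg
  rw [CPD, hset, Set.encard_pair hne]

end Pool.Agent.Results.MP_d7084b_al.CommutingFactorsTwo
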