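import Mathlib

/-!
# MP_d7084b_al, Q1: commuting `H`-polar decompositions are unique up to sign
-/

set_option autoImplicit false

namespace Pool.Agent.Results.MP_d7084b_al.CommutingPolar

open Matrix

variable {n : ℕ}

/-- The `H`-adjoint `M^[*] = H⁻¹ M^* H`. -/
noncomputable def hadj (H M : Matrix (Fin n) (Fin n) ℂ) : Matrix (Fin n) (Fin n) ℂ :=
  H⁻¹ * Mᴴ * H

/-- The indefinite inner product `[x, y] = ⟨Hx, y⟩ = (Hx)^* y`. -/
noncomputable def form (H : Matrix (Fin n) (Fin n) ℂ) (x y : Fin n → ℂ) : ℂ :=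
  star (H *ᵥ x) ⬝ᵥ y

/-- `A` is the selfadjoint factor of an `H`-polar decomposition `X = UA` with commuting factors. -/
def IsCommutingFactor (H X A : Matrix (Fin n) (Fin n) ℂ) : Prop :=
  hadj H A = A ∧ ∃ U : Matrix (Fin n) (Fin n) ℂ, hadj H U * U = 1 ∧ X = U * A ∧ U * A = A * U

/-- `CPD(X, H)`: the number of selfadjoint factors of `H`-polar decompositions of `X` with
commuting factors. -/
noncomputable def CPD (H X : Matrix (Fin n) (Fin n) ℂ) : ℕ∞ :=
  Set.encard {A | IsCommutingFactor H X A}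

/-- `W` is `H`-nondegenerate. -/
def Nondegenerate (H : Matrix (Fin n) (Fin n) ℂ) (W : Submodule ℂ (Fin n → ℂ)) : Prop :=
  ∀ x ∈ W, (∀ y ∈ W, form H x y = 0) → x = 0

/-- `X` is `H`-indecomposable. -/
def Indecomposable (H X : Matrix (Fin n) (Fin n) ℂ) : Prop :=
  ¬ ∃ W : Submodule ℂ (Fin n → ℂ), W ≠ ⊥ ∧ W ≠ ⊤ ∧ Nondegenerate H W ∧
    (∀ x ∈ W, X *ᵥ x ∈ W) ∧ (∀ x ∈ W, hadj H X *ᵥ x ∈ W)

section aux

variable {H : Matrix (Fin n) (Fin n) ℂ}

theorem hadj_mul (hu : IsUnit H.det) (M N : Matrix (Fin n) (Fin n) ℂ) :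
    hadj H (M * N) = hadj H N * hadj H M := by
  simp only [hadj, conjTranspose_mul]
  rw [show H⁻¹ * Nᴴ * H * (H⁻¹ * Mᴴ * H) = H⁻¹ * Nᴴ * (H * H⁻¹) * Mᴴ * H by
    simp only [mul_assoc], mul_nonsing_inv H hu]
  simp only [mul_assoc, one_mul]

theorem hadj_one (hu : IsUnit H.det) : hadj H 1 = 1 := by
  rw [hadj, conjTranspose_one, mul_one, nonsing_inv_mul H hu]

theorem hadj_sub (M N : Matrix (Fin n) (Fin n) ℂ) : hadj H (M - N) = hadj H M - hadj H N := by
  simp only [hadj, conjTranspose_sub, mul_sub, sub_mul]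

theorem hadj_neg (M : Matrix (Fin n) (Fin n) ℂ) : hadj H (-M) = -hadj H M := by
  simp only [hadj, conjTranspose_neg, mul_neg, neg_mul]

theorem hadj_smul (c : ℂ) (M : Matrix (Fin n) (Fin n) ℂ) :
    hadj H (c • M) = (star c) • hadj H M := by
  simp only [hadj, conjTranspose_smul, mul_smul_comm, smul_mul_assoc]

theorem form_hadj (hu : IsUnit H.det) (M : Matrix (Fin n) (Fin n) ℂ)
    (x y : Fin n → ℂ) : form H x (M *ᵥ y) = form H (hadj H M *ᵥ x) y := by
  have h1 : H *ᵥ (hadj H M *ᵥ x) = Mᴴ *ᵥ (H *ᵥ x) := by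
    rw [hadj, mulVec_mulVec, mulVec_mulVec, ← mul_assoc, ← mul_assoc, mul_nonsing_inv H hu, one_mul]
  rw [form, form, h1, star_mulVec (Mᴴ), conjTranspose_conjTranspose, ← dotProduct_mulVec]

theorem form_zero_iff (hu : IsUnit H.det) (x : Fin n → ℂ) (h : ∀ y, form H x y = 0) : x = 0 := by
  have h1 : star (H *ᵥ x) = 0 := by
    ext i
    have := h (Pi.single i 1)
    simpa [form] using this
  have h2 : H *ᵥ x = 0 := star_eq_zero.1 h1
  have h3 : H⁻¹ *ᵥ (H *ᵥ x) = x := by
    rw [mulVec_mulVec, nonsing_inv_mul H hu, one_mulVec]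
  rw [← h3, h2, mulVec_zero]

/-- the spectrum of a unitary in the commutant -/
theorem spectral (hu : IsUnit H.det) {X T : Matrix (Fin n) (Fin n) ℂ}
    (hX : Indecomposable H X) (hT : hadj H T * T = 1) (hTX : T * X = X * T)
    (hTX' : T * hadj H X = hadj H X * T) {c : ℂ} (hc : c ≠ 0) {v : Fin n → ℂ} (hv : v ≠ 0)
    (hcv : T *ᵥ v = c • v) :
    ∃ N : ℕ, ((T - c • 1) * (T - (star c)⁻¹ • 1)) ^ N = 0 := by
  have hsc : star c ≠ 0 := star_ne_zero.2 hc
  set S := (T - c • 1) * (T - (star c)⁻¹ • 1) with hS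
  have hT' : T * hadj H T = 1 := mul_eq_one_comm.1 hT
  -- the adjoint of `S`
  have hadjS : hadj H S = (star c / c) • (hadj H T * hadj H T * S) := by
    have e1 : hadj H S = (hadj H T - c⁻¹ • 1) * (hadj H T - star c • 1) := by
      rw [hS, hadj_mul hu, hadj_sub, hadj_sub, hadj_smul, hadj_smul, hadj_one hu, star_inv₀,
        star_star]
    have e2 : hadj H T - c⁻¹ • (1 : Matrix (Fin n) (Fin n) ℂ) = (-c⁻¹) • (hadj H T * (T - c • 1)) := by
      rw [mul_sub, hT, mul_smul_comm, mul_one, smul_sub, smul_smul]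
      rw [show -c⁻¹ * c = -1 by field_simp]
      simp only [neg_smul, one_smul, sub_neg_eq_add]
      abel
    have e3 : hadj H T - star c • (1 : Matrix (Fin n) (Fin n) ℂ) =
        (-(star c)) • (hadj H T * (T - (star c)⁻¹ • 1)) := by
      rw [mul_sub, hT, mul_smul_comm, mul_one, smul_sub, smul_smul]
      rw [show -(star c) * (star c)⁻¹ = -1 by field_simp]
      simp only [neg_smul, one_smul, sub_neg_eq_add]
      abel
    have hcm : (T - c • 1) * hadj H T = hadj H T * (T - c • 1) := by
      rw [sub_mul, mul_sub, hT, hT']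
      simp
    rw [e1, e2, e3, smul_mul_smul_comm, mul_assoc (hadj H T), ← mul_assoc (T - c • 1), hcm,
      ← mul_assoc, ← mul_assoc, mul_assoc _ (T - c • 1), hS]
    congr 1
    field_simp
  -- powers
  have hcomm : ∀ k : ℕ, (hadj H T * hadj H T * S) ^ k = (hadj H T * hadj H T) ^ k * S ^ k := by
    intro k
    have hTS : Commute T S := by
      rw [hS]
      refine Commute.mul_right ?_ ?_
      · exact (Commute.refl T).sub_right ((Commute.one_right T).smul_right c)
      · exact (Commute.refl T).sub_right ((Commute.one_right T).smul_right _)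
    have h2 : Commute (hadj H T) S := by
      have h3 : hadj H T * S = hadj H T * S * (T * hadj H T) := by rw [hT', mul_one]
      calc hadj H T * S = hadj H T * S * (T * hadj H T) := h3
        _ = hadj H T * (S * T) * hadj H T := by simp only [mul_assoc]
        _ = hadj H T * (T * S) * hadj H T := by rw [hTS.eq]
        _ = (hadj H T * T) * S * hadj H T := by simp only [mul_assoc]
        _ = S * hadj H T := by rw [hT, one_mul]
    exact (h2.mul_left h2).mul_pow k
  have hadjpow : ∀ k : ℕ, hadj H (S ^ k) = (hadj H S) ^ k := by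
    intro k
    induction k with
    | zero => rw [pow_zero, pow_zero, hadj_one hu]
    | succ k ih => rw [pow_succ, hadj_mul hu, ih, pow_succ']
  obtain ⟨N, hN0, hN⟩ := ((Filter.eventually_ge_atTop 1).and
    (LinearMap.eventually_isCompl_ker_pow_range_pow (Matrix.toLin' S))).exists
  refine ⟨N, ?_⟩
  have hpow : (Matrix.toLin' S) ^ N = Matrix.toLin' (S ^ N) := by
    rw [Matrix.toLin'_pow]
  rw [hpow] at hN
  have hker : ∀ x, x ∈ LinearMap.ker (Matrix.toLin' (S ^ N)) ↔ S ^ N *ᵥ x = 0 := by
    intro x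
    rw [LinearMap.mem_ker, Matrix.toLin'_apply]
  have hinv : ∀ M : Matrix (Fin n) (Fin n) ℂ, T * M = M * T →
      ∀ x ∈ LinearMap.ker (Matrix.toLin' (S ^ N)),
        M *ᵥ x ∈ LinearMap.ker (Matrix.toLin' (S ^ N)) := by
    intro M hM x hx
    rw [hker] at hx ⊢
    have hMS : Commute M S := by
      have hM' : Commute M T := hM.symm
      rw [hS]
      refine Commute.mul_right ?_ ?_
      · exact hM'.sub_right ((Commute.one_right M).smul_right c)
      · exact hM'.sub_right ((Commute.one_right M).smul_right _)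
    rw [mulVec_mulVec, ← (hMS.pow_right N).eq, ← mulVec_mulVec, hx, mulVec_zero]
  by_contra hne
  apply hX
  refine ⟨LinearMap.ker (Matrix.toLin' (S ^ N)), ?_, ?_, ?_, hinv X hTX, hinv _ hTX'⟩
  · intro h0
    apply hv
    have : v ∈ LinearMap.ker (Matrix.toLin' (S ^ N)) := by
      rw [hker]
      have h1 : S *ᵥ v = 0 := by
        have h2 : (T - (star c)⁻¹ • 1) * (T - c • 1) = S := by
          rw [hS]
          have : Commute (T - (star c)⁻¹ • 1) (T - c • 1) := by
            refine Commute.sub_left ?_ ?_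
            · exact (Commute.refl T).sub_right ((Commute.one_right T).smul_right c)
            · exact ((Commute.one_left _).smul_left _)
          exact this.eq
        have h3 : (T - c • 1) *ᵥ v = 0 := by
          rw [sub_mulVec, hcv, smul_mulVec, one_mulVec, sub_self]
        rw [← h2, ← mulVec_mulVec, h3, mulVec_zero]
      obtain ⟨k, rfl⟩ : ∃ k, N = k + 1 := ⟨N - 1, by omega⟩
      rw [pow_succ, ← mulVec_mulVec, h1, mulVec_zero]
    rw [h0] at this
    exact (Submodule.mem_bot ℂ).1 this
  · intro htop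
    apply hne
    rw [LinearMap.ker_eq_top] at htop
    exact (Matrix.toLin'.map_eq_zero_iff).1 htop
  · intro x hx horth
    apply form_zero_iff hu
    intro z
    have hz : z ∈ LinearMap.ker (Matrix.toLin' (S ^ N)) ⊔ LinearMap.range (Matrix.toLin' (S ^ N)) := by
      rw [hN.sup_eq_top]
      exact Submodule.mem_top
    obtain ⟨y, hy, w, hw, rfl⟩ := Submodule.mem_sup.1 hz
    obtain ⟨u, rfl⟩ := hw
    rw [hker] at hx
    have h1 : form H x (y + (Matrix.toLin' (S ^ N)) u) =
        form H x y + form H x (S ^ N *ᵥ u) := by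
      rw [Matrix.toLin'_apply, form, form, form, dotProduct_add]
    rw [h1, horth y hy, zero_add, form_hadj hu, hadjpow, hadjS, smul_pow, hcomm, smul_mulVec,
      ← mulVec_mulVec, hx]
    simp [form]

/-- an eigenvalue exists -/
theorem exists_eig [Nonempty (Fin n)] (T : Matrix (Fin n) (Fin n) ℂ) :
    ∃ (c : ℂ) (v : Fin n → ℂ), v ≠ 0 ∧ T *ᵥ v = c • v := by
  obtain ⟨c, hc⟩ := Module.End.exists_eigenvalue (Matrix.toLin' T)
  obtain ⟨v, hv⟩ := hc.exists_hasEigenvector
  refine ⟨c, v, hv.2, ?_⟩
  have := hv.apply_eq_smul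
  rwa [Matrix.toLin'_apply] at this

theorem pow_eigen {M : Matrix (Fin n) (Fin n) ℂ} {c : ℂ} {v : Fin n → ℂ} (h : M *ᵥ v = c • v)
    (k : ℕ) : M ^ k *ᵥ v = c ^ k • v := by
  induction k with
  | zero => simp
  | succ k ih => rw [pow_succ, ← mulVec_mulVec, h, mulVec_smul, ih, smul_smul, pow_succ, mul_comm]

theorem injective_of {M : Matrix (Fin n) (Fin n) ℂ} (h : ∀ v, M *ᵥ v = 0 → v = 0) : IsUnit M := by
  rw [← Matrix.mulVec_injective_iff_isUnit]
  intro x y hxy
  have : M *ᵥ (x - y) = 0 := by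
    rw [mulVec_sub]
    exact sub_eq_zero.2 hxy
  exact sub_eq_zero.1 (h _ this)

theorem unit_of {U : Matrix (Fin n) (Fin n) ℂ} {c d : ℂ} {N : ℕ}
    (h : ((U - c • 1) * (U - d • 1)) ^ N = 0) {m : ℂ} (hm : (m - c) * (m - d) ≠ 0) :
    IsUnit (U - m • 1) := by
  apply injective_of
  intro v hv
  rw [sub_mulVec, smul_mulVec, one_mulVec, sub_eq_zero] at hv
  have h1 : ((U - c • 1) * (U - d • 1)) *ᵥ v = ((m - c) * (m - d)) • v := by
    have e1 : (U - d • 1) *ᵥ v = (m - d) • v := by
      rw [sub_mulVec, hv, smul_mulVec, one_mulVec, sub_smul]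
    have e2 : (U - c • 1) *ᵥ v = (m - c) • v := by
      rw [sub_mulVec, hv, smul_mulVec, one_mulVec, sub_smul]
    rw [← mulVec_mulVec, e1, mulVec_smul, e2, smul_smul, mul_comm]
  have h2 := pow_eigen h1 N
  rw [h, zero_mulVec] at h2
  exact (smul_eq_zero.1 h2.symm).resolve_left (pow_ne_zero _ hm)

theorem unique (hu : IsUnit H.det) {X A A' : Matrix (Fin n) (Fin n) ℂ}
    (hX0 : X ≠ 0) (hX : Indecomposable H X) (hA : IsCommutingFactor H X A)
    (hA' : IsCommutingFactor H X A') : A' = A ∨ A' = -A := by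
  have hne : Nonempty (Fin n) := by
    by_contra h
    apply hX0
    ext i
    exact (h ⟨i⟩).elim
  obtain ⟨hAs, U, hU, hXU, hUA⟩ := hA
  obtain ⟨hAs', U', hU', hXU', hUA'⟩ := hA'
  have hUi : U * hadj H U = 1 := mul_eq_one_comm.1 hU
  have hUi' : U' * hadj H U' = 1 := mul_eq_one_comm.1 hU'
  -- everything commutes with `X` and its adjoint
  have key : ∀ V B : Matrix (Fin n) (Fin n) ℂ, hadj H B = B → hadj H V * V = 1 →
      V * hadj H V = 1 → X = V * B → V * B = B * V →
      hadj H X = hadj H V * B ∧ hadj H V * B = B * hadj H V ∧ V * X = X * V ∧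
      V * hadj H X = hadj H X * V := by
    intro V B hB h1 h2 h3 h4
    have e1 : hadj H V * B = B * hadj H V := by
      calc hadj H V * B = hadj H V * (B * (V * hadj H V)) := by rw [h2, mul_one]
        _ = hadj H V * (B * V) * hadj H V := by simp only [mul_assoc]
        _ = hadj H V * (V * B) * hadj H V := by rw [h4]
        _ = (hadj H V * V) * B * hadj H V := by simp only [mul_assoc]
        _ = B * hadj H V := by rw [h1, one_mul]
    have e2 : hadj H X = hadj H V * B := by rw [h3, hadj_mul hu, hB, e1]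
    refine ⟨e2, e1, ?_, ?_⟩
    · rw [h3, mul_assoc, ← h4]
    · rw [e2, ← mul_assoc, h2, one_mul, mul_assoc, ← h4, ← mul_assoc, h1, one_mul]
  obtain ⟨k1, k2, k3, k4⟩ := key U A hAs hU hUi hXU hUA
  obtain ⟨l1, l2, l3, l4⟩ := key U' A' hAs' hU' hUi' hXU' hUA'
  set W := hadj H U' * U with hW
  have hWA : W * A = A' := by
    rw [hW, mul_assoc, ← hXU, hXU', ← mul_assoc, hU', one_mul]
  have hadjW : hadj H W = hadj H U * U' := by
    rw [hW, hadj_mul hu]
    congr 1
    have h1 : hadj H (hadj H U') * hadj H U' = 1 := by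
      rw [← hadj_mul hu, hUi', hadj_one hu]
    calc hadj H (hadj H U') = hadj H (hadj H U') * (hadj H U' * U') := by rw [hU', mul_one]
      _ = U' := by rw [← mul_assoc, h1, one_mul]
  have hW1 : hadj H W * W = 1 := by
    rw [hadjW, hW, mul_assoc, ← mul_assoc U', hUi', one_mul, hU]
  have hW2 : W * hadj H W = 1 := mul_eq_one_comm.1 hW1
  have hl3 : hadj H U' * X = X * hadj H U' := by
    calc hadj H U' * X = hadj H U' * (X * (U' * hadj H U')) := by rw [hUi', mul_one]
      _ = hadj H U' * (X * U') * hadj H U' := by simp only [mul_assoc]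
      _ = hadj H U' * (U' * X) * hadj H U' := by rw [l3]
      _ = (hadj H U' * U') * X * hadj H U' := by simp only [mul_assoc]
      _ = X * hadj H U' := by rw [hU', one_mul]
  have hl4 : hadj H U' * hadj H X = hadj H X * hadj H U' := by
    calc hadj H U' * hadj H X = hadj H U' * (hadj H X * (U' * hadj H U')) := by rw [hUi', mul_one]
      _ = hadj H U' * (hadj H X * U') * hadj H U' := by simp only [mul_assoc]
      _ = hadj H U' * (U' * hadj H X) * hadj H U' := by rw [l4]
      _ = (hadj H U' * U') * hadj H X * hadj H U' := by simp only [mul_assoc]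
      _ = hadj H X * hadj H U' := by rw [hU', one_mul]
  have hWX : W * X = X * W := by
    rw [hW, mul_assoc, k3, ← mul_assoc, hl3, mul_assoc]
  have hWX' : W * hadj H X = hadj H X * W := by
    rw [hW, mul_assoc, k4, ← mul_assoc, hl4, mul_assoc]
  -- `W A = A W⁻¹`
  have hWA2 : W * A = A * hadj H W := by
    have : hadj H (W * A) = W * A := by rw [hWA, hAs']
    rw [hadj_mul hu, hAs] at this
    exact this.symm
  have hWA3 : A * W = hadj H W * A := by
    calc A * W = (hadj H W * W) * (A * W) := by rw [hW1, one_mul]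
      _ = hadj H W * (W * A) * W := by simp only [mul_assoc]
      _ = hadj H W * A * (hadj H W * W) := by rw [hWA2]; simp only [mul_assoc]
      _ = hadj H W * A := by rw [hW1, mul_one]
  -- the difference
  set D := W * A - hadj H W * A with hD
  have hD1 : U * D = -(D * U) := by
    -- `U (W A) = (W⁻¹ A) U` and `U (W⁻¹ A) = (W A) U`
    have f1 : hadj H W * A * U = U * (W * A) := by
      have g1 : hadj H U * (hadj H W * A) = W * (hadj H U * A) := by
        rw [← hWA3, ← mul_assoc, ← k1, ← hWX', k1]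
      calc hadj H W * A * U = (U * hadj H U) * (hadj H W * A) * U := by rw [hUi, one_mul]
        _ = U * (hadj H U * (hadj H W * A)) * U := by simp only [mul_assoc]
        _ = U * W * hadj H U * (A * U) := by rw [g1]; simp only [mul_assoc]
        _ = U * W * (hadj H U * U) * A := by rw [← hUA]; simp only [mul_assoc]
        _ = U * (W * A) := by rw [hU, mul_one, mul_assoc]
    have f2 : W * A * U = U * (hadj H W * A) := by
      rw [mul_assoc, ← hUA, ← hXU, hWX, hXU, mul_assoc, hWA3]
    rw [hD, mul_sub, sub_mul, f1, f2]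
    abel
  clear_value D
  have hD0 : D = 0 := by
    obtain ⟨c, v, hv, hcv⟩ := exists_eig U
    have hc : c ≠ 0 := by
      rintro rfl
      apply hv
      rw [zero_smul] at hcv
      rw [← one_mulVec v, ← hU, ← mulVec_mulVec, hcv, mulVec_zero]
    obtain ⟨N, hN⟩ := spectral hu hX hU k3 k4 hc hv hcv
    set d := (star c)⁻¹ with hd
    have hsc : star c ≠ 0 := star_ne_zero.2 hc
    have hd0 : d ≠ 0 := inv_ne_zero hsc
    have hcd : c + d ≠ 0 := by
      intro h0
      have h1 : c * star c = -1 := by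
        have h2 : (c + d) * star c = 0 := by rw [h0, zero_mul]
        rw [add_mul, hd, inv_mul_cancel₀ hsc] at h2
        linear_combination h2
      have h2 : (c * star c).re = Complex.normSq c := by
        rw [show star c = (starRingEnd ℂ) c from rfl, Complex.mul_conj, Complex.ofReal_re]
      rw [h1] at h2
      have h3 := Complex.normSq_nonneg c
      rw [← h2] at h3
      norm_num at h3
    have u1 : IsUnit (U - (-c) • 1) := unit_of hN (by
      intro h0
      rcases mul_eq_zero.1 h0 with h1 | h1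
      · exact hc (by linear_combination (-1 / 2 : ℂ) * h1)
      · exact hcd (by linear_combination -h1))
    have u2 : IsUnit (U - (-d) • 1) := unit_of hN (by
      intro h0
      rcases mul_eq_zero.1 h0 with h1 | h1
      · exact hcd (by linear_combination -h1)
      · exact hd0 (by linear_combination (-1 / 2 : ℂ) * h1))
    have hstep : ∀ m : ℂ, D * (U - m • 1) = -((U - (-m) • 1) * D) := by
      intro m
      have hDU : D * U = -(U * D) := by rw [hD1, neg_neg]
      rw [mul_sub, sub_mul, hDU, mul_smul_comm, mul_one, smul_mul_assoc, one_mul, neg_smul]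
      abel
    have hstep2 : D * ((U - c • 1) * (U - d • 1)) = ((U - (-c) • 1) * (U - (-d) • 1)) * D := by
      rw [← mul_assoc, hstep, neg_mul, mul_assoc, hstep, mul_neg, neg_neg, mul_assoc]
    have hstepN : ∀ k : ℕ, D * ((U - c • 1) * (U - d • 1)) ^ k =
        ((U - (-c) • 1) * (U - (-d) • 1)) ^ k * D := by
      intro k
      induction k with
      | zero => rw [pow_zero, pow_zero, mul_one, one_mul]
      | succ k ih => rw [pow_succ, ← mul_assoc, ih, mul_assoc, hstep2, ← mul_assoc, ← pow_succ]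
    have h5 := hstepN N
    rw [hN, mul_zero] at h5
    exact ((u1.mul u2).pow N).mul_right_eq_zero.1 h5.symm
  have hW2A : W * W * A = A := by
    have h1 : W * A = hadj H W * A := by rw [← sub_eq_zero, ← hD, hD0]
    rw [mul_assoc, h1, ← mul_assoc, hW2, one_mul]
  by_cases hunit : IsUnit (W - (-1 : ℂ) • 1)
  · left
    have h1 : (W - (-1 : ℂ) • 1) * (W * A - A) = 0 := by
      rw [neg_smul, one_smul, sub_neg_eq_add, add_mul, mul_sub, ← mul_assoc, hW2A, one_mul]
      abel
    have h2 := hunit.mul_right_eq_zero.1 h1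
    rw [← hWA]
    exact sub_eq_zero.1 h2
  · right
    have hex : ∃ v, v ≠ 0 ∧ W *ᵥ v = (-1 : ℂ) • v := by
      by_contra hno
      push Not at hno
      apply hunit
      apply injective_of
      intro v hv
      by_contra hv0
      apply hno v hv0
      rw [sub_mulVec, smul_mulVec, one_mulVec] at hv
      exact sub_eq_zero.1 hv
    obtain ⟨v, hv, hWv⟩ := hex
    obtain ⟨N, hN⟩ := spectral hu hX hW1 hWX hWX' (by norm_num) hv hWv
    have u1 : IsUnit (W - (1 : ℂ) • 1) := unit_of hN (by
      rw [star_neg, star_one]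
      norm_num)
    have h1 : (W - (1 : ℂ) • 1) * (W * A + A) = 0 := by
      rw [one_smul, sub_mul, mul_add, ← mul_assoc, hW2A, one_mul]
      abel
    have h2 := u1.mul_right_eq_zero.1 h1
    rw [← hWA]
    exact eq_neg_of_add_eq_zero_left h2

end aux

/-- Let `H` be Hermitian and nonsingular and let `X ≠ 0` be `H`-indecomposable. If `X` has an
`H`-polar decomposition with commuting factors, then `CPD(X, H) = 2`. -/
theorem result (n : ℕ) (H X : Matrix (Fin n) (Fin n) ℂ) (_hH : H.IsHermitian) (hdet : H.det ≠ 0)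
    (hX0 : X ≠ 0) (hX : Indecomposable H X) (hex : ∃ A, IsCommutingFactor H X A) :
    CPD H X = 2 := by
  have hu : IsUnit H.det := isUnit_iff_ne_zero.2 hdet
  obtain ⟨A, hA⟩ := hex
  have hA0 : A ≠ 0 := by
    rintro rfl
    obtain ⟨-, U, -, h, -⟩ := hA
    exact hX0 (by rw [h, mul_zero])
  have hnegA : IsCommutingFactor H X (-A) := by
    obtain ⟨h1, U, h2, h3, h4⟩ := hA
    refine ⟨by rw [hadj_neg, h1], -U, ?_, ?_, ?_⟩
    · rw [hadj_neg, neg_mul_neg, h2]
    · rw [neg_mul_neg, h3]
    · rw [neg_mul_neg, neg_mul_neg, h4]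
  have hne : A ≠ -A := by
    intro h
    apply hA0
    have h2 : (2 : ℂ) • A = 0 := by
      rw [two_smul]
      nth_rewrite 2 [h]
      exact add_neg_cancel A
    exact (smul_eq_zero.1 h2).resolve_left two_ne_zero
  have hset : {B | IsCommutingFactor H X B} = {A, -A} := by
    ext B
    constructor
    · intro hB
      rcases unique hu hX0 hX hA hB with h | h
      · exact Or.inl h
      · exact Or.inr h
    · rintro (h | h)
      · rw [h]
        exact hA
      · rw [Set.mem_singleton_iff.1 h]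
        exact hnegA
  rw [CPD, hset]
  exact Set.encard_pair hne

end Pool.Agent.Results.MP_d7084b_al.CommutingPolar
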